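import Pool.Agent.Lib.MP_d38209_co.CR.MMain
import Pool.Agent.Lib.MP_d38209_co.CR.MFinal
import Pool.Agent.Lib.MP_d38209_co.CR.MNum
import Pool.Agent.Lib.MP_d38209_co.CR.MNum2

/-!
# Almost all graphs of maximum degree at most `Δ` (`3 ≤ Δ ≤ 9`) have all their chromatic roots in
an explicit disc around `1`

The radii are `2.47`, `4.12`, `6.24`, `9.02`, `12.59`, `17.55`, `24.27` for `Δ = 3, …, 9`; for
`3 ≤ Δ ≤ 7` the disc lies in the disc `|q| < 2 Δ`.
-/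

namespace Pool.Agent.Results.MP_d38209_co.AlmostAllBoundedDegree

open Pool.Agent.Lib.MP_d38209_co.CR Finset

/-- `P` is the chromatic polynomial of `G`: for every positive integer `k`, the value `P(k)` is
the number of maps `σ` from the vertices to `k` colours with `σ x ≠ σ y` for adjacent `x`, `y`. -/
def IsChromaticPolynomial {V : Type} (G : SimpleGraph V) (P : Polynomial ℂ) : Prop :=
  ∀ k : ℕ, 0 < k → P.eval (k : ℂ) =
    (Nat.card {σ : V → Fin k // ∀ x y, G.Adj x y → σ x ≠ σ y} : ℂ)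

/-- The chromatic polynomial of `G` exists, and all its complex roots `q` satisfy
`|q - 1| < ρ`. -/
def RootsInDisc {V : Type} (G : SimpleGraph V) (ρ : ℝ) : Prop :=
  (∃ P : Polynomial ℂ, IsChromaticPolynomial G P) ∧
    ∀ P : Polynomial ℂ, IsChromaticPolynomial G P → ∀ q : ℂ, P.eval q = 0 → ‖q - 1‖ < ρ

theorem aux {Δ : ℕ} (k : ℕ) (hΔ : 1 ≤ Δ) (hk : 1 ≤ k) (ρ ρ' x : ℝ) (h2 : 2 * k < ρ')
    (h3 : ρ' < ρ) (hx : x = 2 * k / ρ') (hC : ∃ c > 0, ∀ j, 1 ≤ j → j ≤ Δ → CondM k j x c)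
    (ε : ℝ) (hε : 0 < ε) :
    ∃ m : ℕ, ∀ (n : ℕ) (S : Set (Fin n → ℕ)), (∀ D ∈ S, (∀ v, D v ≤ Δ) ∧ m ≤ ∑ v, D v) →
      (1 - ε) * Nat.card {G : SimpleGraph (Fin n) // (fun v => Nat.card (G.neighborSet v)) ∈ S} ≤
        Nat.card {G : SimpleGraph (Fin n) // (fun v => Nat.card (G.neighborSet v)) ∈ S ∧
          RootsInDisc G ρ} := by
  obtain ⟨c, hc, hC⟩ := hC
  subst hx
  obtain ⟨N₀, hN⟩ := mainM hΔ hk ρ ρ' c h2 h3 hc hC ε hε
  refine ⟨N₀, fun n S hS => ?_⟩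
  have h1 := gf_fam (fun n G => ∃ P : Polynomial ℂ,
    Pool.Agent.Lib.MP_d38209_co.CR.IsChromaticPolynomial G P ∧
      ∃ q : ℂ, P.eval q = 0 ∧ ρ ≤ ‖q - 1‖) N₀ ε hε.le hN n S hS
  have h4 := gf_split
    (fun G : SimpleGraph (Fin n) => (fun v => Nat.card (G.neighborSet v)) ∈ S) ρ
  have h5 : (Nat.card {G : SimpleGraph (Fin n) //
      (fun v => Nat.card (G.neighborSet v)) ∈ S} : ℝ) =
      Nat.card {G : SimpleGraph (Fin n) // (fun v => Nat.card (G.neighborSet v)) ∈ S ∧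
        RootsInDisc G ρ} +
      Nat.card {G : SimpleGraph (Fin n) // (fun v => Nat.card (G.neighborSet v)) ∈ S ∧
        ∃ P : Polynomial ℂ, Pool.Agent.Lib.MP_d38209_co.CR.IsChromaticPolynomial G P ∧
          ∃ q : ℂ, P.eval q = 0 ∧ ρ ≤ ‖q - 1‖} := by
    exact_mod_cast h4
  linarith

/-- Let `(Δ, ρ)` be one of `(3, 2.47)`, `(4, 4.12)`, `(5, 6.24)`, `(6, 9.02)`, `(7, 12.59)`,
`(8, 17.55)`, `(9, 24.27)`, and let `ε > 0`.  There is an `m` such that for every `n` and every set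
`S` of sequences `Fin n → {0, …, Δ}` with sums at least `m`, among the graphs on `Fin n` whose
degree sequence is in `S` at least the proportion `1 - ε` has all chromatic roots in the disc
`|q - 1| < ρ`.  (Examples: `S` is one sequence; or all sequences with sum at least `m`, which gives
the graphs of maximum degree at most `Δ` with at least `m / 2` edges.) -/
theorem result (Δ : ℕ) (ρ : ℝ)
    (h : (Δ = 3 ∧ ρ = 2.47) ∨ (Δ = 4 ∧ ρ = 4.12) ∨ (Δ = 5 ∧ ρ = 6.24) ∨ (Δ = 6 ∧ ρ = 9.02) ∨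
      (Δ = 7 ∧ ρ = 12.59) ∨ (Δ = 8 ∧ ρ = 17.55) ∨ (Δ = 9 ∧ ρ = 24.27)) (ε : ℝ) (hε : 0 < ε) :
    ∃ m : ℕ, ∀ (n : ℕ) (S : Set (Fin n → ℕ)), (∀ D ∈ S, (∀ v, D v ≤ Δ) ∧ m ≤ ∑ v, D v) →
      (1 - ε) * Nat.card {G : SimpleGraph (Fin n) // (fun v => Nat.card (G.neighborSet v)) ∈ S} ≤
        Nat.card {G : SimpleGraph (Fin n) // (fun v => Nat.card (G.neighborSet v)) ∈ S ∧
          RootsInDisc G ρ} := by
  rcases h with ⟨rfl, rfl⟩ | ⟨rfl, rfl⟩ | ⟨rfl, rfl⟩ | ⟨rfl, rfl⟩ | ⟨rfl, rfl⟩ | ⟨rfl, rfl⟩ |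
    ⟨rfl, rfl⟩
  · exact aux 1 (by norm_num) (by norm_num) 2.47 (2465 / 1000) _ (by norm_num) (by norm_num)
      (by norm_num) condM3 ε hε
  · exact aux 2 (by norm_num) (by norm_num) 4.12 (4117 / 1000) _ (by norm_num) (by norm_num)
      (by norm_num) condM4 ε hε
  · exact aux 3 (by norm_num) (by norm_num) 6.24 (6237 / 1000) _ (by norm_num) (by norm_num)
      (by norm_num) condM5 ε hε
  · exact aux 4 (by norm_num) (by norm_num) 9.02 (9019 / 1000) _ (by norm_num) (by norm_num)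
      (by norm_num) condM6 ε hε
  · exact aux 6 (by norm_num) (by norm_num) 12.59 (12588 / 1000) _ (by norm_num) (by norm_num)
      (by norm_num) condM7 ε hε
  · exact aux 8 (by norm_num) (by norm_num) 17.55 (17546 / 1000) _ (by norm_num) (by norm_num)
      (by norm_num) condM8 ε hε
  · exact aux 12 (by norm_num) (by norm_num) 24.27 (24265 / 1000) _ (by norm_num) (by norm_num)
      (by norm_num) condM9 ε hε

end Pool.Agent.Results.MP_d38209_co.AlmostAllBoundedDegree
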