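import Pool.Agent.Lib.MP_d38209_co.Large
import Pool.Agent.Lib.MP_d38209_co.Count

/-!
# All chromatic roots of graphs of maximum degree `Δ` satisfy `|q| < (15 Δ - 21) / 4`

More generally: if the vertices of degree `> Δ` form a clique `C`, then every chromatic root is one
of `0, 1, …, |C| - 1` or satisfies `|q| < (15 Δ - 21) / 4`.  (`C = ∅`: the maximum degree is at
most `Δ`; `|C| ≤ 1`: the second-largest degree is at most `Δ`.)  For `Δ = 3` the bound is
`6 = 2 Δ`.
-/

namespace Pool.Agent.Results.MP_d38209_co.ChromaticRoots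

open Pool.Agent.Lib.MP_d38209_co Finset

/-- `P` is the chromatic polynomial of `G`: for every positive integer `k`, the value `P(k)` is
the number of maps `σ` from the vertices to `k` colours with `σ x ≠ σ y` for adjacent `x`, `y`. -/
def IsChromaticPolynomial {V : Type} (G : SimpleGraph V) (P : Polynomial ℂ) : Prop :=
  ∀ k : ℕ, 0 < k → P.eval (k : ℂ) =
    (Nat.card {σ : V → Fin k // ∀ x y, G.Adj x y → σ x ≠ σ y} : ℂ)

/-- Let `Δ ≥ 2` and let `G` be a finite graph whose vertices of degree `> Δ` lie in a clique `C`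
(for example `C = ∅` when `G` has maximum degree at most `Δ`).  Then every root `q` of the
chromatic polynomial of `G` is an integer `0 ≤ q < |C|` or satisfies `|q| < (15 Δ - 21) / 4`. -/
theorem result {V : Type} [Finite V] (G : SimpleGraph V) (Δ : ℕ) (hΔ : 2 ≤ Δ) (C : Set V)
    (hC : ∀ u ∈ C, ∀ v ∈ C, u ≠ v → G.Adj u v)
    (hdeg : ∀ v, v ∉ C → Nat.card (G.neighborSet v) ≤ Δ) :
    (∃ P : Polynomial ℂ, IsChromaticPolynomial G P) ∧
    ∀ P : Polynomial ℂ, IsChromaticPolynomial G P → ∀ q : ℂ, P.eval q = 0 →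
      (∃ i : ℕ, i < Nat.card C ∧ q = (i : ℂ)) ∨ ‖q‖ < (15 * (Δ : ℝ) - 21) / 4 := by
  classical
  haveI : Fintype V := Fintype.ofFinite V
  have hcard : ∀ k : ℕ, 0 < k → uh G univ k =
      (Nat.card {σ : V → Fin k // ∀ x y, G.Adj x y → σ x ≠ σ y} : ℂ) := by
    intro k _
    rw [uh, card_univ, Nat.sub_self, pow_zero, div_one, Nat.card_eq_fintype_card,
      Fintype.card_subtype, col]
    congr 2
    ext σ
    simp [Prop']
  refine ⟨?_, ?_⟩
  · obtain ⟨P, hP⟩ := (isPoly_all G _ univ rfl).1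
    exact ⟨P, fun k hk => by rw [hP k hk, hcard k hk]⟩
  · intro P hP q hq0
    by_contra hcon
    rw [not_or, not_lt] at hcon
    obtain ⟨hc1, hc2⟩ := hcon
    obtain ⟨n, rfl⟩ : ∃ n, Δ = n + 1 := ⟨Δ - 1, by omega⟩
    have hn : 1 ≤ n := by omega
    have hn' : (1 : ℝ) ≤ n := by exact_mod_cast hn
    have e : (15 * ((n + 1 : ℕ) : ℝ) - 21) / 4 = (15 * (n : ℝ) - 6) / 4 := by push_cast; ring
    rw [e] at hc2
    have hQ0 : 0 < (15 * (n : ℝ) - 6) / 4 := by linarith
    have hqn : 0 < ‖q‖ := hQ0.trans_le hc2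
    have hq : q ≠ 0 := norm_pos_iff.mp hqn
    obtain ⟨zU, zW, hsys, hval⟩ := sys G q
    have hz : zU univ = 0 := by
      rw [← hval P (fun k hk => by rw [hP k hk, hcard k hk]), hq0]
    have hE0 : 0 < 1 - 1 / ((15 * (n : ℝ) - 6) / 4) := by
      rw [sub_pos, div_lt_one hQ0]; linarith
    have hE : 1 - 1 / ((15 * (n : ℝ) - 6) / 4) ≤ ‖1 - 1 / q‖ := by
      have h1 : 1 - 1 / ‖q‖ ≤ ‖1 - 1 / q‖ := by
        have := norm_sub_norm_le (1 : ℂ) (1 / q)
        rwa [norm_one, norm_div, norm_one] at this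
      have h2 : 1 / ‖q‖ ≤ 1 / ((15 * (n : ℝ) - 6) / 4) := one_div_le_one_div_of_le hQ0 hc2
      linarith
    obtain ⟨r0, hr0⟩ := exists_closed hn
    obtain ⟨r, h1, h2, h3⟩ := lift hQ0 hE0 hr0 hc2 hE
    refine (main hsys hq n C.toFinset ?_ ?_ ?_ r h1 h2 h3 univ (subset_univ _)).1 hz
    · intro u hu v hv
      rw [Set.mem_toFinset] at hu hv
      exact hC u hu v hv
    · intro i hi hqi
      refine hc1 ⟨i, ?_, hqi⟩
      rwa [Nat.card_eq_fintype_card, ← Set.toFinset_card]
    · intro A v hv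
      rw [Set.mem_toFinset] at hv
      refine le_trans ?_ (hdeg v hv)
      rw [Nat.card_eq_fintype_card, SimpleGraph.card_neighborSet_eq_degree]
      refine card_le_card fun y hy => ?_
      rw [mem_nb] at hy
      rw [SimpleGraph.mem_neighborFinset]
      exact hy.2

end Pool.Agent.Results.MP_d38209_co.ChromaticRoots
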