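import Pool.Agent.Lib.MP_d38209_co.LB.Asm

/-!
# Chromatic roots of `K_{Δ,Δ}` outside the disc of radius `1.5989 Δ`

Let `x` be the solution of `1 + x = 2 exp x` with `0 < Im x < π / 2` and `ρ = exp (-Re x) =
1.59896…`.  For every `R < ρ` and every large `Δ` the graph `K_{Δ,Δ}`, all of whose vertices have
degree `Δ`, has a chromatic root `q` with `|q| > R Δ`.
-/

namespace Pool.Agent.Results.MP_d38209_co.LowerBound

open Pool.Agent.Lib.MP_d38209_co.LB Filter

/-- `P` is the chromatic polynomial of `G`: for every positive integer `k`, the value `P(k)` is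
the number of maps `σ` from the vertices to `k` colours with `σ x ≠ σ y` for adjacent `x`, `y`. -/
def IsChromaticPolynomial {V : Type} (G : SimpleGraph V) (P : Polynomial ℂ) : Prop :=
  ∀ k : ℕ, 0 < k → P.eval (k : ℂ) =
    (Nat.card {σ : V → Fin k // ∀ x y, G.Adj x y → σ x ≠ σ y} : ℂ)

/-- There is a solution `x` of `1 + x = 2 exp x` with `0 < Im x < π / 2` and
`ρ = exp (-Re x) > 1.5989` such that for every `R < ρ` and all large `Δ` the complete bipartite
graph `K_{Δ,Δ}` (which is `Δ`-regular) has a chromatic root of modulus greater than `R Δ`. -/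
theorem result : ∃ x : ℂ, 1 + x = 2 * Complex.exp x ∧ 0 < x.im ∧ x.im < Real.pi / 2 ∧
    1.5989 < Real.exp (-x.re) ∧
    ∀ R : ℝ, R < Real.exp (-x.re) → ∀ᶠ Δ : ℕ in atTop,
      (∀ v, Nat.card ((completeBipartiteGraph (Fin Δ) (Fin Δ)).neighborSet v) = Δ) ∧
      ∃ P : Polynomial ℂ,
        IsChromaticPolynomial (completeBipartiteGraph (Fin Δ) (Fin Δ)) P ∧
        ∃ q : ℂ, P.eval q = 0 ∧ R * Δ < ‖q‖ := by
  obtain ⟨a, b, hb, hb2, ha, ha0, hρ, h1, h2, h3⟩ := crit
  refine ⟨a + b * Complex.I, crit_eq a b h1 h2, ?_, ?_, ?_, ?_⟩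
  · simpa using hb
  · simpa using hb2
  · simpa using hρ
  · intro R hR
    have hR' : R < Real.exp (-a) := by simpa using hR
    filter_upwards [lower a b hb hb2 ha ha0 h1 h2 h3 R hR'] with D hD
    refine ⟨?_, ?_⟩
    · rintro (v | v)
      · have : (completeBipartiteGraph (Fin D) (Fin D)).neighborSet (Sum.inl v) =
            Set.range Sum.inr := by
          ext w
          cases w <;> simp [completeBipartiteGraph]
        rw [this, Nat.card_range_of_injective Sum.inr_injective, Nat.card_eq_fintype_card,
          Fintype.card_fin]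
      · have : (completeBipartiteGraph (Fin D) (Fin D)).neighborSet (Sum.inr v) =
            Set.range Sum.inl := by
          ext w
          cases w <;> simp [completeBipartiteGraph]
        rw [this, Nat.card_range_of_injective Sum.inl_injective, Nat.card_eq_fintype_card,
          Fintype.card_fin]
    · obtain ⟨P, hP, hdeg, hev⟩ := exists_poly D
      refine ⟨P, fun k _ => ?_, hD P hP hdeg hev⟩
      rw [hev k, card_col D D k]

end Pool.Agent.Results.MP_d38209_co.LowerBound
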